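import Pool.Agent.W732.Ud.Stm3
import Pool.Agent.W15.Ud.G3

/-!
UD2-G3C: the scaling maps with continuity on the closure (adapted from helper15's S_geo3).
-/

set_option autoImplicit false

open Metric Set Filter Topology Complex

namespace Pool.Agent.W925.Ud.G3c

open Pool.Agent.W732.Cor (V)
open Pool.Agent.W732.Ud (SS S_geo3c)
open Pool.Agent.W15.Ud (Gt den_ne G_ball G_diff om xp ze yy ww xp_orth facts ze_diff pt_bounds
  in_dom close_est)

theorem re_nonneg_closure {m : ℕ} (W : V m → ℂ) (D : Set (V m)) (cW : ContinuousOn W (closure D))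
    (hW : ∀ z ∈ D, 0 < (W z).re) : ∀ z ∈ closure D, 0 ≤ (W z).re := by
  have h : MapsTo (fun z => (W z).re) (closure D) (closure (Ioi (0 : ℝ))) :=
    MapsTo.closure_of_continuousOn (s := D) (fun z hz => hW z hz)
      (Complex.continuous_re.comp_continuousOn cW)
  intro z hz
  have := h hz
  rw [closure_Ioi] at this
  exact this

theorem G_cont {m : ℕ} (e : V m) (s : ℝ) (hs : 0 < s) (W : V m → ℂ) (Y : V m → V m)
    (D : Set (V m)) (cW : ContinuousOn W (closure D)) (cY : ContinuousOn Y (closure D))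
    (hW : ∀ z ∈ D, 0 < (W z).re) : ContinuousOn (Gt e s W Y) (closure D) := by
  have hre := re_nonneg_closure W D cW hW
  have hne : ∀ z ∈ closure D, ((s : ℂ) ^ 2) + W z ≠ 0 := by
    intro z hz h
    have h1 := congrArg Complex.re h
    have h2 : (((s : ℂ) ^ 2) + W z).re = s ^ 2 + (W z).re := by
      rw [add_re, ← ofReal_pow, ofReal_re]
    rw [h2, zero_re] at h1
    have := hre z hz
    have : 0 < s ^ 2 := by positivity
    linarith
  unfold Gt
  have h1 : ContinuousOn (fun z => (((s : ℂ) ^ 2) - W z) / (((s : ℂ) ^ 2) + W z)) (closure D) :=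
    ((continuousOn_const).sub cW).div ((continuousOn_const).add cW) hne
  have h2 : ContinuousOn (fun z => (2 * (s : ℂ)) / (((s : ℂ) ^ 2) + W z)) (closure D) :=
    (continuousOn_const).div ((continuousOn_const).add cW) hne
  exact (h1.smul continuousOn_const).add (h2.smul cY)

theorem G_cl {m : ℕ} (G : V m → V m) (D : Set (V m)) (cG : ContinuousOn G (closure D))
    (hG : MapsTo G D (ball 0 1)) : MapsTo G (closure D) (closedBall 0 1) := by
  have h := MapsTo.closure_of_continuousOn hG cG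
  intro z hz
  exact closure_ball_subset_closedBall (h hz)

theorem main : S_geo3c := by
  intro m e R D A A' B l β he hR h1 h2 κ W Y hκ hκ1 dW dY cW cY hWY h3 r σ hr hσ
  have hWpos : ∀ z ∈ D, 0 < (W z).re := fun z hz => lt_of_le_of_lt (sq_nonneg _) (hWY z hz).2
  rcases le_or_gt r 0 with hr0 | hr0
  · have hb : ball (0 : V m) r = ∅ := Metric.ball_eq_empty.2 hr0
    have hG1 := G_cont e 1 one_pos W Y D cW cY hWpos
    have hB1 : MapsTo (Gt e 1 W Y) D (ball 0 1) := by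
      intro z hz
      rw [mem_ball_zero_iff]
      exact G_ball e he 1 one_pos W Y z (hWY z hz).1 (hWY z hz).2
    refine ⟨fun _ => 0, Gt e 1 W Y, ?_, ?_, G_diff e 1 W Y D dW dY hWpos, hB1, hG1,
      G_cl _ D hG1 hB1, ?_, ?_⟩
    · rw [hb]; exact differentiableOn_empty
    · rw [hb]; intro x hx; exact absurd hx (Set.notMem_empty x)
    · rw [hb]; intro x hx; exact absurd hx (Set.notMem_empty x)
    · rw [hb]; intro x hx; exact absurd hx (Set.notMem_empty x)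
  -- constants
  have hr1 : 0 < 1 - r := by linarith
  obtain ⟨K, hK⟩ : ∃ K : ℝ, K = 1 / (1 - r) := ⟨_, rfl⟩
  have hK0 : 0 < K := by rw [hK]; positivity
  obtain ⟨C1, hC1⟩ : ∃ C1 : ℝ, C1 = ‖A'‖ * K := ⟨_, rfl⟩
  have hC10 : 0 ≤ C1 := by rw [hC1]; positivity
  obtain ⟨C2, hC2⟩ : ∃ C2 : ℝ, C2 = 2 * K + ‖B‖ * C1 ^ 2 := ⟨_, rfl⟩
  have hC20 : 0 ≤ C2 := by rw [hC2]; positivity
  obtain ⟨c5, hc5⟩ : ∃ c5 : ℝ, c5 = (1 - r ^ 2) / 4 := ⟨_, rfl⟩
  have hc50 : 0 < c5 := by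
    rw [hc5]; nlinarith
  obtain ⟨C3, hC3⟩ : ∃ C3 : ℝ, C3 = C2 * ‖l‖ * C1 + |β| * C2 ^ 2 := ⟨_, rfl⟩
  have hC30 : 0 ≤ C3 := by rw [hC3]; positivity
  obtain ⟨σ0, hσ0⟩ : ∃ σ0 : ℝ, σ0 = c5 / (4 * (C1 ^ 2 + C2 ^ 2 + 1)) := ⟨_, rfl⟩
  have hσ00 : 0 < σ0 := by rw [hσ0]; positivity
  obtain ⟨σ1, hσ1⟩ : ∃ σ1 : ℝ, σ1 = σ / (2 * (C2 + C1 ^ 2) * (1 + K) + 2 * C1 + 1) := ⟨_, rfl⟩
  have hσ10 : 0 < σ1 := by rw [hσ1]; positivity
  obtain ⟨r2, hr2, H2⟩ := h2 σ0 hσ00
  obtain ⟨r3, hr3, H3⟩ := h3 σ1 hσ10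
  -- the parameter
  obtain ⟨s, hs0, hs1, hsa, hsb, hsc, hsd⟩ : ∃ s : ℝ, 0 < s ∧ s ≤ 1 ∧ (C1 + C2 + 1) * s ≤ σ ∧
      (C1 + C2 + 1) * s < r2 ∧ (C1 + C2 + 1) * s < r3 ∧ C3 * s ≤ c5 / 4 := by
    obtain ⟨q, hq⟩ : ∃ q : ℝ, q = min (min 1 σ) (min (min r2 r3) (c5 / 4)) := ⟨_, rfl⟩
    have hq0 : 0 < q := by
      rw [hq]
      simp only [lt_min_iff]
      exact ⟨⟨one_pos, hσ⟩, ⟨hr2, hr3⟩, by positivity⟩
    obtain ⟨Q, hQ⟩ : ∃ Q : ℝ, Q = 2 * (C1 + C2 + C3 + 1) := ⟨_, rfl⟩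
    have hQ0 : 0 < Q := by rw [hQ]; positivity
    have hq1 : q ≤ 1 := by rw [hq]; exact (min_le_left _ _).trans (min_le_left _ _)
    have hq2 : q ≤ σ := by rw [hq]; exact (min_le_left _ _).trans (min_le_right _ _)
    have hq3 : q ≤ r2 := by
      rw [hq]; exact (min_le_right _ _).trans ((min_le_left _ _).trans (min_le_left _ _))
    have hq4 : q ≤ r3 := by
      rw [hq]; exact (min_le_right _ _).trans ((min_le_left _ _).trans (min_le_right _ _))
    have hq5 : q ≤ c5 / 4 := by rw [hq]; exact (min_le_right _ _).trans (min_le_right _ _)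
    have hhalf : (C1 + C2 + 1) * (q / Q) ≤ q / 2 := by
      rw [mul_div_assoc', div_le_iff₀ hQ0, hQ]
      nlinarith
    refine ⟨q / Q, by positivity, ?_, ?_, ?_, ?_, ?_⟩
    · rw [div_le_one hQ0, hQ]; linarith
    · linarith
    · linarith
    · linarith
    · have : C3 * (q / Q) ≤ q := by
        rw [mul_div_assoc', div_le_iff₀ hQ0, hQ]
        nlinarith
      linarith
  have hs2 : s ^ 2 ≤ s := by nlinarith
  have hpt := fun x (hx : ‖x‖ < r) =>
    pt_bounds e A A' B he h1 r hr s hs0 K C1 C2 hK hC1 hC2 x hx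
  have hyr : ∀ x : V m, ‖x‖ < r → ‖yy e A' s x‖ ≤ (C1 + C2 + 1) * s ∧
      ‖ww e A' B s x‖ ≤ (C1 + C2 + 1) * s := by
    intro x hx
    obtain ⟨p1, p2, -, -⟩ := hpt x hx
    constructor
    · exact p1.trans (mul_le_mul_of_nonneg_right (by linarith) hs0.le)
    · exact p2.trans ((mul_le_mul_of_nonneg_left hs2 hC20).trans
        (mul_le_mul_of_nonneg_right (by linarith) hs0.le))
  have hdom : ∀ x : V m, ‖x‖ < r → ((R : ℂ) - ww e A' B s x) • e + yy e A' s x ∈ D := by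
    intro x hx
    obtain ⟨p1, p2, p3, p4⟩ := hpt x hx
    obtain ⟨q1, q2⟩ := hyr x hx
    refine H2 _ _ p3 (by linarith) (by linarith) ?_
    exact in_dom e A A' B l β he r hr s hs0 hs1 C1 C2 C3 c5 σ0 hC10 hC20 hC3 hc5 hc50 hσ0 hsd x hx
      p1 p2 p4
  have hG1 := G_cont e s hs0 W Y D cW cY hWpos
  have hB1 : MapsTo (Gt e s W Y) D (ball 0 1) := by
    intro z hz
    rw [mem_ball_zero_iff]
    exact G_ball e he s hs0 W Y z (hWY z hz).1 (hWY z hz).2
  refine ⟨fun x => ((R : ℂ) - ww e A' B s x) • e + yy e A' s x, Gt e s W Y, ?_, ?_,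
    G_diff e s W Y D dW dY hWpos, hB1, hG1, G_cl _ D hG1 hB1, ?_, ?_⟩
  · obtain ⟨d1, d2⟩ := ze_diff e he r hr
    have d3 : DifferentiableOn ℂ (yy e A' s) (ball 0 r) := by
      unfold yy
      exact (A'.differentiable.comp_differentiableOn d2).const_smul (s : ℂ)
    have d4 : DifferentiableOn ℂ (ww e A' B s) (ball 0 r) := by
      unfold ww
      refine ((differentiableOn_const _).mul d1).add ?_
      exact (B.differentiable.comp_differentiableOn d3).clm_apply d3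
    exact (((differentiableOn_const _).sub d4).smul_const e).add d3
  · intro x hx
    exact hdom x (by simpa using hx)
  · intro x hx
    have hx' : ‖x‖ < r := by simpa using hx
    obtain ⟨p1, p2, -, -⟩ := hpt x hx'
    have h5 : ((R : ℂ) - ww e A' B s x) • e + yy e A' s x - (R : ℂ) • e =
        -(ww e A' B s x) • e + yy e A' s x := by
      rw [sub_smul, neg_smul]; abel
    simp only
    rw [h5]
    refine (norm_add_le _ _).trans ?_
    rw [norm_smul, norm_neg, he, mul_one]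
    have h9 := mul_le_mul_of_nonneg_left hs2 hC20
    linarith
  · intro x hx
    have hx' : ‖x‖ < r := by simpa using hx
    obtain ⟨p1, p2, p3, p4⟩ := hpt x hx'
    obtain ⟨q1, q2⟩ := hyr x hx'
    obtain ⟨t1, t2⟩ := H3 _ _ p3 (lt_of_le_of_lt q1 hsc) (lt_of_le_of_lt q2 hsc) (hdom x hx')
    have hz := hdom x hx'
    have hyq : ‖yy e A' s x‖ ^ 2 ≤ C1 ^ 2 * s ^ 2 := by
      have h9 := pow_le_pow_left₀ (norm_nonneg _) p1 2
      have h10 : (C1 * s) ^ 2 = C1 ^ 2 * s ^ 2 := by ring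
      linarith
    have u1 : ‖W (((R : ℂ) - ww e A' B s x) • e + yy e A' s x) - (s : ℂ) ^ 2 * om e x‖ ≤
        σ1 * (C2 + C1 ^ 2) * s ^ 2 := by
      have h6 : ww e A' B s x - B (yy e A' s x) (yy e A' s x) = (s : ℂ) ^ 2 * om e x := by
        unfold ww; ring
      rw [h6] at t1
      refine t1.trans ?_
      have : ‖ww e A' B s x‖ + ‖yy e A' s x‖ ^ 2 ≤ (C2 + C1 ^ 2) * s ^ 2 := by linarith
      have h7 := mul_le_mul_of_nonneg_left this hσ10.le
      linarith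
    have u2 : ‖Y (((R : ℂ) - ww e A' B s x) • e + yy e A' s x) -
        (κ : ℂ) • ((s : ℂ) • ze e x)‖ ≤ σ1 * (C1 * s) := by
      rw [p4] at t2
      exact t2.trans (mul_le_mul_of_nonneg_left p1 hσ10.le)
    have h8 := close_est e x he r hr hx' K C1 (C2 + C1 ^ 2) σ1 s κ hK hs0 hκ hκ1 _ _ (hWpos _ hz)
      u1 u2
    refine le_trans h8 ?_
    have hX : 0 < 2 * (C2 + C1 ^ 2) * (1 + K) + 2 * C1 + 1 := by positivity
    rw [hσ1, div_mul_eq_mul_div, div_le_iff₀ hX]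
    exact mul_le_mul_of_nonneg_left (by linarith) hσ.le

end Pool.Agent.W925.Ud.G3c
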